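import Pool.Agent.Y116.UV.Defs

/-!
# Regulators in all weights `n ≤ 0`: definitions
-/

set_option autoImplicit false

open CategoryTheory AlgebraicGeometry Pool.Agent.Y116.UV

namespace Pool.Agent.U738.RG

universe w

/-- Regulators. `M n i X = CH_n(X, i) ⊗ ℝ` is the motivic Borel-Moore homology with real coefficients,
`D n i X` its archimedean analogue: for `n < 0` the Deligne homology of `X_ℝ`, which is the dual of the
cohomology with compact support of `X(ℂ)` with coefficients `ℝ(n)` (invariants of complex conjugation), for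
`n = 0` the dual of the cohomology with compact support of `X` compactified at infinity; `reg` is the
regulator. For `X` regular, connected, proper and flat of dimension `d`, `E i X` is the real Deligne
cohomology `H^{2d-1-i}_D(X_ℝ, ℝ(d))`, and `D 0 (i + 1) X → E i X` the natural map. -/
structure Regulators where
  M : ℤ → ℤ → Sch ℤ → ModuleCat.{w} ℝ
  D : ℤ → ℤ → Sch ℤ → ModuleCat.{w} ℝ
  E : ℕ → Sch ℤ → ModuleCat.{w} ℝ
  reg : ∀ (n i : ℤ) (X : Sch ℤ), M n i X ⟶ D n i X
  nat : ∀ (i : ℕ) (X : Sch ℤ), D 0 (i + 1) X ⟶ E i X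

/-- `X` is connected, regular, proper and flat over `ℤ`. -/
structure IsArithmetic (X : Sch ℤ) : Prop where
  finite : FT True X
  connected : ConnectedSpace X.left
  proper : IsProper X.hom
  flat : Flat X.hom
  regular : ∀ x : X.left, IsRegularLocalRing (X.left.presheaf.stalk x)

/-- The conjecture for `X` in all weights `n ≤ 0`: the regulators are isomorphisms. -/
def AllBijective (T : Regulators.{w}) (X : Sch ℤ) : Prop :=
  ∀ n : ℤ, n ≤ 0 → ∀ i : ℤ, Function.Bijective (T.reg n i X).hom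

/-- The map `r_i : H^{2d-1-i}(X, ℚ(d)) ⊗ ℝ = CH_0(X, i + 1) ⊗ ℝ → H^{2d-1-i}_D(X_ℝ, ℝ(d))`. -/
noncomputable def r (T : Regulators.{w}) (i : ℕ) (X : Sch ℤ) : T.M 0 (i + 1) X ⟶ T.E i X :=
  T.reg 0 (i + 1) X ≫ T.nat i X

/-- **Q1 for `X`**: `r_i` is bijective for `i ≥ 1`, and in degree `0` there is a short exact sequence
`0 → M^{2d-1} → D^{2d-1} → ℝ → 0` (`CH^0(X_ℚ) = ℤ`, as the generic fibre is irreducible). -/
def Q1 (T : Regulators.{w}) (X : Sch ℤ) : Prop :=
  (∀ i : ℕ, 1 ≤ i → Function.Bijective (r T i X).hom) ∧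
    ∃ g : T.E 0 X →ₗ[ℝ] ℝ, Function.Injective (r T 0 X).hom ∧ Function.Exact (r T 0 X).hom g ∧
      Function.Surjective g

/-- A long exact sequence `⋯ → U_{k+1} → Z_k → X_k → U_k → ⋯`. -/
structure LongExact (Z X U : ℤ → ModuleCat.{w} ℝ) where
  a : ∀ k, Z k ⟶ X k
  b : ∀ k, X k ⟶ U k
  d : ∀ k, U (k + 1) ⟶ Z k
  exact_da : ∀ k, Function.Exact (d k).hom (a k).hom
  exact_ab : ∀ k, Function.Exact (a k).hom (b k).hom
  exact_bd : ∀ k, Function.Exact (b (k + 1)).hom (d k).hom

/-- The maps `f`, `g`, `h` commute with the maps of the long exact sequences `S` and `S'`. -/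
structure IsMap {Z X U Z' X' U' : ℤ → ModuleCat.{w} ℝ} (S : LongExact Z X U)
    (S' : LongExact Z' X' U') (f : ∀ k, Z k ⟶ Z' k) (g : ∀ k, X k ⟶ X' k) (h : ∀ k, U k ⟶ U' k) :
    Prop where
  comm_a : ∀ k, S.a k ≫ g k = f k ≫ S'.a k
  comm_b : ∀ k, S.b k ≫ h k = g k ≫ S'.b k
  comm_d : ∀ k, S.d k ≫ f k = h (k + 1) ≫ S'.d k

/-- The maps `f : M → N` and `f' : M' → N'` are isomorphic. -/
def Isomorphic {M N M' N' : ModuleCat.{w} ℝ} (f : M ⟶ N) (f' : M' ⟶ N') : Prop :=
  ∃ (e : M ≅ M') (e' : N ≅ N'), e.hom ≫ f' = f ≫ e'.hom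

/-- The regulators of `Z`, `X`, `U` of weight `n` are maps between long exact sequences. -/
def HasLocalization (T : Regulators.{w}) (n : ℤ) (Z X U : Sch ℤ) : Prop :=
  ∃ (S : LongExact (fun k => T.M n k Z) (fun k => T.M n k X) (fun k => T.M n k U))
    (S' : LongExact (fun k => T.D n k Z) (fun k => T.D n k X) (fun k => T.D n k U)),
    IsMap S S' (fun k => T.reg n k Z) (fun k => T.reg n k X) (fun k => T.reg n k U)

/-- The archimedean groups of weight `0` and the Deligne cohomology for a scheme as in Q1: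
`D 0 (i + 1) X → E i X` is bijective for `i ≥ 1`, and injective with cokernel `ℝ` for `i = 0`. -/
def IsDeligne (T : Regulators.{w}) (X : Sch ℤ) : Prop :=
  (∀ i : ℕ, 1 ≤ i → Function.Bijective (T.nat i X).hom) ∧
    ∃ g : T.E 0 X →ₗ[ℝ] ℝ, Function.Injective (T.nat 0 X).hom ∧
      Function.Exact (T.nat 0 X).hom g ∧ Function.Surjective g

/-- The properties of the regulators which are used. -/
structure IsRegulator (T : Regulators.{w}) : Prop where
  /-- isomorphic schemes -/
  iso : ∀ (n i : ℤ) {X Y : Sch ℤ}, FT True X → Nonempty (X ≅ Y) →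
    Isomorphic (T.reg n i X) (T.reg n i Y)
  /-- localization -/
  localization : ∀ (n : ℤ) {Z X U : Sch ℤ} (i : Z ⟶ X) (j : U ⟶ X), FT True X → IsTriple i j →
    HasLocalization T n Z X U
  /-- homotopy invariance, for `X = Spec A` -/
  line : ∀ (n i : ℤ) (A : Type) [CommRing A] [Algebra ℤ A] [Algebra.FiniteType ℤ A],
    Isomorphic (T.reg n i (aff ℤ (Polynomial A))) (T.reg (n - 1) i (aff ℤ A))
  /-- affine schemes of dimension at most one (Dirichlet, Borel, Harder) -/
  curve : ∀ (A : Type) [CommRing A] [Algebra ℤ A] [Algebra.FiniteType ℤ A], ringKrullDim A ≤ 1 →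
    AllBijective T (aff ℤ A)
  /-- the archimedean groups of the schemes of Q1 -/
  deligne : ∀ X : Sch ℤ, IsArithmetic X → IsDeligne T X

end Pool.Agent.U738.RG
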