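import Pool.Agent.U738.RG.Defs
import Pool.Agent.U738.SO.BDefs
import Pool.Agent.U738.BN.Bnd
import Pool.Agent.U738.CX.Fam

/-!
# Regulators: the schemes built from schemes of small dimension
-/

set_option autoImplicit false

open CategoryTheory AlgebraicGeometry Pool.Agent.Y116.UV Pool.Agent.U738.BN Pool.Agent.U738.CX
  Pool.Agent.U738.SO

namespace Pool.Agent.U738.RG

universe w

variable {T : Regulators.{w}}

section lin

variable {M N M' N' : ModuleCat.{w} ℝ}

lemma comm_fun {f : M ⟶ M'} {g : N ⟶ N'} {ρ : M ⟶ N} {σ : M' ⟶ N'} (h : f ≫ σ = ρ ≫ g) :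
    g.hom ∘ₗ ρ.hom = σ.hom ∘ₗ f.hom := by
  have := congrArg ModuleCat.Hom.hom h
  simpa using this.symm

lemma bij_iso {ρ : M ⟶ N} {σ : M' ⟶ N'} (h0 : Isomorphic ρ σ) :
    Function.Bijective ρ.hom ↔ Function.Bijective σ.hom := by
  obtain ⟨e, e', h⟩ := h0
  have h1 : (σ.hom : M' → N') ∘ e.toLinearEquiv = e'.toLinearEquiv ∘ ρ.hom := by
    funext x
    exact (LinearMap.congr_fun (comm_fun h) x).symm
  have h2 : Function.Bijective e.toLinearEquiv := e.toLinearEquiv.bijective
  have h3 : Function.Bijective e'.toLinearEquiv := e'.toLinearEquiv.bijective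
  constructor
  · intro hρ
    have h4 : Function.Bijective ((σ.hom : M' → N') ∘ e.toLinearEquiv) := by
      rw [h1]
      exact h3.comp hρ
    exact (Function.Bijective.of_comp_iff _ h2).mp h4
  · intro hσ
    have h4 : Function.Bijective (e'.toLinearEquiv ∘ (ρ.hom : M → N)) := by
      rw [← h1]
      exact hσ.comp h2
    exact (Function.Bijective.of_comp_iff' h3 _).mp h4

end lin

lemma all_iso (h : IsRegulator T) {X Y : Sch ℤ} (hX : FT True X) (e : Nonempty (X ≅ Y))
    (hP : AllBijective T X) : AllBijective T Y := by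
  intro n hn i
  exact (bij_iso (h.iso n i hX e)).mp (hP n hn i)

lemma all_line (h : IsRegulator T) (A : Type) [CommRing A] [Algebra ℤ A]
    [Algebra.FiniteType ℤ A] (hA : AllBijective T (aff ℤ A)) :
    AllBijective T (aff ℤ (Polynomial A)) := by
  intro n hn i
  exact (bij_iso (h.line n i A)).mpr (hA (n - 1) (by omega) i)

section triple

variable {Z X U : Sch ℤ} {i : Z ⟶ X} {j : U ⟶ X}

lemma all_total (h : IsRegulator T) (hX : FT True X) (ht : IsTriple i j)
    (hZ : AllBijective T Z) (hU : AllBijective T U) : AllBijective T X := by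
  intro n hn k
  obtain ⟨S, S', H⟩ := h.localization n i j hX ht
  obtain ⟨m, rfl⟩ : ∃ m, k = m + 1 := ⟨k - 1, by ring⟩
  exact LinearMap.bijective_of_surjective_of_bijective_of_bijective_of_injective
    (S.d (m + 1)).hom (S.a (m + 1)).hom (S.b (m + 1)).hom (S.d m).hom
    (S'.d (m + 1)).hom (S'.a (m + 1)).hom (S'.b (m + 1)).hom (S'.d m).hom
    (T.reg n (m + 1 + 1) U).hom (T.reg n (m + 1) Z).hom (T.reg n (m + 1) X).hom
    (T.reg n (m + 1) U).hom (T.reg n m Z).hom
    (comm_fun (H.comm_d (m + 1))) (comm_fun (H.comm_a (m + 1))) (comm_fun (H.comm_b (m + 1)))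
    (comm_fun (H.comm_d m))
    (S.exact_da (m + 1)) (S.exact_ab (m + 1)) (S.exact_bd m)
    (S'.exact_da (m + 1)) (S'.exact_ab (m + 1)) (S'.exact_bd m)
    (hU n hn _).2 (hZ n hn _) (hU n hn _) (hZ n hn _).1

lemma all_closed (h : IsRegulator T) (hX : FT True X) (ht : IsTriple i j)
    (hX' : AllBijective T X) (hU : AllBijective T U) : AllBijective T Z := by
  intro n hn k
  obtain ⟨S, S', H⟩ := h.localization n i j hX ht
  exact LinearMap.bijective_of_surjective_of_bijective_of_bijective_of_injective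
    (S.b (k + 1)).hom (S.d k).hom (S.a k).hom (S.b k).hom
    (S'.b (k + 1)).hom (S'.d k).hom (S'.a k).hom (S'.b k).hom
    (T.reg n (k + 1) X).hom (T.reg n (k + 1) U).hom (T.reg n k Z).hom
    (T.reg n k X).hom (T.reg n k U).hom
    (comm_fun (H.comm_b (k + 1))) (comm_fun (H.comm_d k)) (comm_fun (H.comm_a k))
    (comm_fun (H.comm_b k))
    (S.exact_bd k) (S.exact_da k) (S.exact_ab k)
    (S'.exact_bd k) (S'.exact_da k) (S'.exact_ab k)
    (hX' n hn _).2 (hU n hn _) (hX' n hn _) (hU n hn _).1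

lemma all_opened (h : IsRegulator T) (hX : FT True X) (ht : IsTriple i j)
    (hZ : AllBijective T Z) (hX' : AllBijective T X) : AllBijective T U := by
  intro n hn k
  obtain ⟨S, S', H⟩ := h.localization n i j hX ht
  obtain ⟨m, rfl⟩ : ∃ m, k = m + 1 := ⟨k - 1, by ring⟩
  exact LinearMap.bijective_of_surjective_of_bijective_of_bijective_of_injective
    (S.a (m + 1)).hom (S.b (m + 1)).hom (S.d m).hom (S.a m).hom
    (S'.a (m + 1)).hom (S'.b (m + 1)).hom (S'.d m).hom (S'.a m).hom
    (T.reg n (m + 1) Z).hom (T.reg n (m + 1) X).hom (T.reg n (m + 1) U).hom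
    (T.reg n m Z).hom (T.reg n m X).hom
    (comm_fun (H.comm_a (m + 1))) (comm_fun (H.comm_b (m + 1))) (comm_fun (H.comm_d m))
    (comm_fun (H.comm_a m))
    (S.exact_ab (m + 1)) (S.exact_bd m) (S.exact_da m)
    (S'.exact_ab (m + 1)) (S'.exact_bd m) (S'.exact_da m)
    (hZ n hn _).2 (hX' n hn _) (hZ n hn _) (hX' n hn _).1

end triple

theorem posD (h : IsRegulator T) {N : WithBot ℕ∞} (hN : ForDimension N (AllBijective T)) :
    PosD True (AllBijective T) N where
  iso hX e hP := all_iso h hX e hP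
  total _ _ hX ht hZ hU := all_total h hX ht hZ hU
  times A _ _ _ hA := times_of_line (sep := True) (fun hX e hP => all_iso h hX e hP)
    (fun _ _ hX ht hZ hX' => all_opened h hX ht hZ hX') (all_line h A hA) hA
  dim := hN

theorem built (h : IsRegulator T) {N : ℕ} (hN : ForDimension N (AllBijective T)) {X : Sch ℤ}
    (hX : Built N X) : AllBijective T X := by
  have hP := posD h hN
  induction hX with
  | dim S hS => exact hN S hS
  | terms S m G hS hG => exact two_terms hP S hS m G hG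
  | graded A Γ 𝒜 hd => exact for_complexity hP A Γ 𝒜 hd
  | iso hX e _ ih => exact all_iso h hX e ih
  | total i j hX ht _ _ ih1 ih2 => exact all_total h hX ht ih1 ih2
  | closed i j hX ht _ _ ih1 ih2 => exact all_closed h hX ht ih1 ih2
  | opened i j hX ht _ _ ih1 ih2 => exact all_opened h hX ht ih1 ih2
  | line A _ ih => exact all_line h A ih

/-- Q1 from the regulators of weight `0` -/
theorem q1_of (h : IsRegulator T) {X : Sch ℤ} (hX : IsArithmetic X) (hb : AllBijective T X) :
    Q1 T X := by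
  obtain ⟨h1, g, g1, g2, g3⟩ := h.deligne X hX
  have hr : ∀ i : ℕ, (r T i X).hom = (T.nat i X).hom ∘ₗ (T.reg 0 (i + 1) X).hom := fun i => rfl
  refine ⟨fun i hi => ?_, g, ?_, ?_, g3⟩
  · rw [hr]
    exact (h1 i hi).comp (hb 0 le_rfl _)
  · rw [hr]
    exact g1.comp (hb 0 le_rfl _).1
  · rw [hr]
    intro y
    rw [g2 y]
    constructor
    · rintro ⟨x, rfl⟩
      obtain ⟨z, rfl⟩ := (hb 0 le_rfl _).2 x
      exact ⟨z, rfl⟩
    · rintro ⟨z, rfl⟩
      exact ⟨_, rfl⟩

end Pool.Agent.U738.RG
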